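import Pool.Agent.SPH.Generic2

/-!
MP_f7e9f1_co, Q1: the removal property for almost every configuration with at most `2 d - 1` points.

`Sph d` is the unit sphere of `E d = EuclideanSpace ℝ (Fin (d + 1))`, `OG d` the group of real
orthogonal matrices of size `d + 1`, `mu d` its Haar probability, `sig d` the rotation invariant
probability on the sphere, `density P A` the density of copies of `P` in `A`, `Avoids P A` says that
no copy of `P` lies in `A`, and `HasRemoval P` is the removal property of the problem.
-/

open MeasureTheory Set Filter
open scoped ENNReal NNReal Topology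

noncomputable section
namespace Pool.Agent.Results.MP_f7e9f1_co.AlmostEveryTuple

open SPH

/-- For almost every `k`-tuple of points of the sphere `S^d`, `d` at least three, the configuration
that consists of its points has the removal property, if `k` is at least one and at most `2 d - 3`
(at most `2 d - 2` for `d` at least six, at most `2 d - 1` for `d` at least seven). -/
theorem result (d k : ℕ) (hd : 3 ≤ d) (hk1 : 1 ≤ k)
    (hk : k + 3 ≤ 2 * d ∨ (6 ≤ d ∧ k + 2 ≤ 2 * d) ∨ (7 ≤ d ∧ k + 1 ≤ 2 * d)) :
    ∀ᵐ x ∂(Measure.pi fun _ : Fin k => sig d), HasRemoval (Finset.univ.image x) := by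
  classical
  rcases hk with hk | ⟨hd6, hk⟩ | ⟨hd7, hk⟩
  · convert ae_hasRemoval hd hk1 hk
  · convert ae_hasRemoval_six hd6 hk1 hk
  · convert ae_hasRemoval2 hd7 hk1 hk

end Pool.Agent.Results.MP_f7e9f1_co.AlmostEveryTuple
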