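import Pool.Agent.SPH.Dim1Fin

/-!
MP_f7e9f1_co, Q1, the case `d = 1`: every configuration on the circle has the removal property, with
a linear bound.
-/

open MeasureTheory Set Filter
open scoped ENNReal NNReal Topology

noncomputable section
namespace Pool.Agent.Results.MP_f7e9f1_co.CircleRemoval

open SPH

/-- On the circle every configuration has the removal property, and from a measurable set `A` one
may delete a part of measure at most twice the density of copies. -/
theorem result (P : Finset (Sph 1)) (hP : P.Nonempty) :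
    (∀ A : Set (Sph 1), MeasurableSet A → ∃ D : Set (Sph 1), D ⊆ A ∧ MeasurableSet D ∧
      sig 1 D ≤ ENNReal.ofReal (2 * density P A) ∧ Avoids P (A \ D)) ∧ HasRemoval P := by
  refine ⟨fun A hA => ?_, dim_one P hP⟩
  obtain ⟨D, h1, h2, h3, h4⟩ := dim_one_raw P hP A hA
  refine ⟨D, h1, h2, h3.trans (le_of_eq ?_), h4⟩
  rw [density_eq P hA, ENNReal.ofReal_mul (by norm_num : (0 : ℝ) ≤ 2)]
  have h6 : ENNReal.ofReal 2 = 2 := by norm_num
  rw [h6, Measure.real, ENNReal.ofReal_toReal (measure_ne_top _ _)]

end Pool.Agent.Results.MP_f7e9f1_co.CircleRemoval
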