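import Pool.Agent.SPHK.Final

/-!
MP_f7e9f1_co, Q1: for every number of points, the removal property holds for all configurations in
all sufficiently high dimensions.

`Sph d` is the unit sphere of `EuclideanSpace ℝ (Fin (d + 1))`, `OG d` the group of real orthogonal
matrices of size `d + 1`, `mu d` its Haar probability, `sig d` the rotation invariant probability on
the sphere, `density P A` the density of copies of `P` in `A`, `Avoids P A` says that no copy of `P`
lies in `A`, and `HasRemoval P` is the removal property of the problem.
-/

noncomputable section
namespace Pool.Agent.Results.MP_f7e9f1_co.HighDimension

open SPH

/-- For every `k` there is a dimension from which on every configuration with at most `k` points has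
the removal property. -/
theorem result (k : ℕ) : ∃ d₀ : ℕ, ∀ d : ℕ, d₀ ≤ d → ∀ P : Finset (Sph d), P.Nonempty →
    P.card ≤ k → HasRemoval P := by
  exact SPHK.theoremK k

end Pool.Agent.Results.MP_f7e9f1_co.HighDimension
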