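import Pool.Agent.SPH.PlusCor
import Pool.Agent.SPH.Cor

/-!
MP_f7e9f1_co, Q1: the removal property for configurations of complexity one on the sphere.

`Sph d` is the unit sphere of `E d = EuclideanSpace ℝ (Fin (d + 1))`, `OG d` the group of real
orthogonal matrices of size `d + 1`, `mu d` its Haar probability, `sig d` the rotation invariant
probability on the sphere, `density P A` the density of copies of `P` in `A`, `Avoids P A` says that
no copy of `P` lies in `A`, and `HasRemoval P` is the removal property of the problem.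
-/

open MeasureTheory Set Filter
open scoped ENNReal NNReal Topology

noncomputable section
namespace Pool.Agent.Results.MP_f7e9f1_co.SphereRemoval

open SPH

/-- the vectors of the members of a family with index in `S` -/
def vecs {d : ℕ} {ι : Type} (v : ι → Sph d) (S : Set ι) : Set (E d) := (fun i => (v i : E d)) '' S

/-- `x` lies in the linear span of `S` -/
def InSpan {d : ℕ} (x : E d) (S : Set (E d)) : Prop := x ∈ Submodule.span ℝ S

/-- the dimension of the linear span of `S` -/
def rk {d : ℕ} (S : Set (E d)) : ℕ := Module.finrank ℝ (Submodule.span ℝ S)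

/-- orthogonality -/
def Perp {d : ℕ} (x y : E d) : Prop := inner ℝ x y = 0

/-- equal or antipodal points -/
def SameLine {d : ℕ} (p q : Sph d) : Prop := p = q ∨ p = -q

/-- The splitting condition at the member `i0` of a family `v`: the family lies in a great sphere,
and its other members split into `A` and the rest, neither of which spans `v i0`, with `A` of
rank at most `d - 2`. -/
def SplitFam {d : ℕ} {ι : Type} (v : ι → Sph d) (i0 : ι) : Prop :=
  ∃ (A : Finset ι) (e : E d), i0 ∉ A ∧ ‖e‖ = 1 ∧ (∀ i, Perp e (v i)) ∧
    ¬ InSpan (v i0 : E d) (vecs v A) ∧ ¬ InSpan (v i0 : E d) (vecs v {i | i ∉ A ∧ i ≠ i0}) ∧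
    rk (vecs v (A : Set ι)) + 2 ≤ d

/-- The plane condition at the member `i0` of a family `v` (no condition on the rank of the family):
the other members split into `A` and the rest, and there is a plane with orthonormal basis `a, b`,
orthogonal to the rest but not to `v i0`, such that `v i0`, `A`, `a`, `b` together have rank at
most `d`, and either `v i0` is not spanned by `A`, `a`, `b`, or `v i0` is not spanned by `A` and
the plane is not contained in the span of `v i0` and `A`. -/
def PlaneFam {d : ℕ} {ι : Type} (v : ι → Sph d) (i0 : ι) : Prop :=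
  ∃ (A : Finset ι) (a b : E d), i0 ∉ A ∧ ‖a‖ = 1 ∧ ‖b‖ = 1 ∧ Perp a b ∧
    (∀ i, i ∉ A → i ≠ i0 → Perp a (v i) ∧ Perp b (v i)) ∧ ¬ (Perp a (v i0) ∧ Perp b (v i0)) ∧
    rk (insert (v i0 : E d) (vecs v (A : Set ι)) ∪ {a, b}) ≤ d ∧
    (¬ InSpan (v i0 : E d) (vecs v (A : Set ι) ∪ {a, b}) ∨
      (¬ InSpan (v i0 : E d) (vecs v (A : Set ι)) ∧
        ¬ (InSpan a (insert (v i0 : E d) (vecs v (A : Set ι))) ∧
          InSpan b (insert (v i0 : E d) (vecs v (A : Set ι))))))

/-- the doubled family: the members with index outside `B`, and their images under `r` -/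
def dblFam {d : ℕ} {ι : Type} (v : ι → Sph d) (B : Finset ι) (r : OG d) :
    {i // i ∉ B} ⊕ {i // i ∉ B} → Sph d :=
  Sum.elim (fun i => v i) (fun i => r • v i)

/-- A member `i0` of a family `v` of points of the sphere is tame if it satisfies the splitting
condition or the plane condition, or if there are a finite set `B` of indices different from `i0`
and a closed one-parameter group `R` of orthogonal matrices that fixes all `v i` with `i` in `B`,
such that for almost every parameter the member `i0` is tame in the family that consists of the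
points `v i` and `R v i` with `i` not in `B`. -/
inductive Tame {d : ℕ} : (ι : Type) → (ι → Sph d) → ι → Prop
  | split {ι : Type} (v : ι → Sph d) (i0 : ι) (h : SplitFam v i0) : Tame ι v i0
  | plane {ι : Type} (v : ι → Sph d) (i0 : ι) (h : PlaneFam v i0) : Tame ι v i0
  | step {ι : Type} (v : ι → Sph d) (i0 : ι) (B : Finset ι) (hB : i0 ∉ B) (R : ℝ → OG d)
      (hRc : Continuous R) (hadd : ∀ s t, R (s + t) = R s * R t) (hper : R (2 * Real.pi) = 1)
      (hRB : ∀ θ, ∀ i ∈ B, R θ • v i = v i) (N : Set ℝ) (hN : volume N = 0)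
      (h : ∀ τ, τ ∉ N → Tame ({i // i ∉ B} ⊕ {i // i ∉ B}) (dblFam v B (R τ)) (Sum.inl ⟨i0, hB⟩)) :
      Tame ι v i0

/-- four points, no two of them antipodal, on one great circle -/
def FourOnCircle {d : ℕ} (P : Finset (Sph d)) : Prop :=
  P.card = 4 ∧ (∀ p ∈ P, ∀ q ∈ P, SameLine p q → p = q) ∧
    ∃ x y : E d, ∀ p ∈ P, InSpan (p : E d) {x, y}

/-- the vectors of `P` are linearly independent -/
def Indep {d : ℕ} (P : Finset (Sph d)) : Prop :=
  LinearIndependent ℝ (fun p : P => ((p : Sph d) : E d))

/-- `P` is an orthonormal basis -/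
def OrthoBasis {d : ℕ} (P : Finset (Sph d)) : Prop :=
  P.card = d + 1 ∧ ∀ p ∈ P, ∀ q ∈ P, p ≠ q → Perp (p : E d) (q : E d)

theorem ctrlAt_of_tame {d : ℕ} (hd : 3 ≤ d) {ι : Type} (v : ι → Sph d) (i0 : ι)
    (h : Tame ι v i0) : ∀ _ : Fintype ι, CtrlAt v i0 := by
  classical
  induction h with
  | split v i0 h => exact fun _ => ctrlAt_of_base hd v i0 h
  | plane v i0 h =>
    intro _
    refine ctrlAt_of_planeCond hd v i0 ?_
    obtain ⟨A, a, b, h0, h1, h2, h3, h4, h5, h6, h7⟩ := h
    exact ⟨A, a, b, h0, h1, h2, h3, h4, not_and_or.mp h5, h6, h7⟩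
  | step v i0 B hB R hRc hadd hper hRB N hN h ih =>
    intro _
    refine ctrl_step v i0 B hB R hRc hadd hper hRB (ae_restrict_of_ae ?_)
    have h1 : ∀ᵐ τ : ℝ, τ ∉ N := by
      rw [ae_iff]
      simpa using hN
    filter_upwards [h1] with τ hτ
    exact ih τ hτ _

/-- The removal property for configurations of complexity one on `S^d`, `d` at least three:
(1) every configuration contained, up to signs, in a finite family with only tame members;
(2) all configurations with at most three points;
(3) for `d` at least four, all configurations with at most four points, other than four pairwise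
non-antipodal points of one great circle;
(4) for `d` at least four, all linearly independent configurations other than orthonormal bases. -/
theorem result (d : ℕ) (hd : 3 ≤ d) :
    (∀ (ι : Type) [Fintype ι] (v : ι → Sph d), (∀ i, Tame ι v i) →
      ∀ P : Finset (Sph d), P.Nonempty → (∀ p ∈ P, ∃ i, SameLine p (v i)) → HasRemoval P) ∧
    (∀ P : Finset (Sph d), P.Nonempty → P.card ≤ 3 → HasRemoval P) ∧
    (4 ≤ d → ∀ P : Finset (Sph d), P.Nonempty → P.card ≤ 4 → ¬ FourOnCircle P → HasRemoval P) ∧
    (4 ≤ d → ∀ P : Finset (Sph d), P.Nonempty → Indep P → ¬ OrthoBasis P → HasRemoval P) := by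
  classical
  refine ⟨fun ι _ v hv P hP hPv =>
      hasRemoval_of_ctrlAt hd v (fun i0 => ctrlAt_of_tame hd v i0 (hv i0) _) P hP hPv,
    fun P hP hc => card_le_three hd P hP hc, fun h4 P hP hc hr => card_le_four h4 P hP hc ?_,
    fun h4 P hP hli hno => hasRemoval_of_li h4 P hP hli ?_⟩
  · refine fun h1 h2 h3 => hr ⟨h1, fun p hp q hq hpq => ?_, h3⟩
    rcases hpq with h | h
    · exact h
    · exact absurd (h ▸ hp) (h2 q hq)
  · intro hc
    by_contra hcon
    push Not at hcon
    exact hno ⟨hc, hcon⟩

end Pool.Agent.Results.MP_f7e9f1_co.SphereRemoval
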